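import Pool.Agent.Helper40.Nm.Goals

/-!
Galois descent of a splitting of a torus.
-/

open TensorProduct

namespace Pool.Agent.Helper48.Nm

open Pool.Agent.Helper40.Nm

section Base

variable {K L F A : Type} [Field K] [Field L] [Field F] [Algebra K L] [Algebra K F] [Algebra L F]
  [IsScalarTower K L F] [CommRing A] [HopfAlgebra K A]

variable (K L F A) in
/-- the map `L ⊗ A → F ⊗ A` -/
noncomputable def iota : L ⊗[K] A →ₐ[L] F ⊗[K] A :=
  Algebra.TensorProduct.map (Algebra.ofId L F) (AlgHom.id K A)

@[simp] lemma iota_tmul (l : L) (a : A) : iota K L F A (l ⊗ₜ a) = algebraMap L F l ⊗ₜ[K] a := rfl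

lemma repr_iota {I : Type} (b : Module.Basis I K A) (z : L ⊗[K] A) (i : I) :
    (Algebra.TensorProduct.basis F b).repr (iota K L F A z) i =
      algebraMap L F ((Algebra.TensorProduct.basis L b).repr z i) := by
  induction z using TensorProduct.induction_on with
  | zero => simp
  | tmul l a =>
    rw [iota_tmul, Algebra.TensorProduct.basis_repr_tmul, Algebra.TensorProduct.basis_repr_tmul]
    simp [← IsScalarTower.algebraMap_apply, Algebra.smul_def]
  | add x y hx hy => simp [hx, hy]

lemma iota_injective : Function.Injective (iota K L F A) := by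
  intro x y h
  let b := Module.Free.chooseBasis K A
  apply (Algebra.TensorProduct.basis L b).repr.injective
  ext i
  apply (algebraMap L F).injective
  rw [← repr_iota (F := F) b x i, ← repr_iota (F := F) b y i, h]

variable (K L F A) in
/-- the map on the tensor squares -/
noncomputable def jj : (L ⊗[K] A) ⊗[L] (L ⊗[K] A) →ₐ[L] (F ⊗[K] A) ⊗[F] (F ⊗[K] A) :=
  Algebra.TensorProduct.lift
    (((Algebra.TensorProduct.includeLeft (R := F) (S := F) (A := F ⊗[K] A)
      (B := F ⊗[K] A)).restrictScalars L).comp (iota K L F A))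
    ((((Algebra.TensorProduct.includeRight (R := F) (A := F ⊗[K] A) (B := F ⊗[K] A)).restrictScalars
      L)).comp (iota K L F A)) (fun _ _ => Commute.all _ _)

@[simp] lemma jj_tmul (x y : L ⊗[K] A) :
    jj K L F A (x ⊗ₜ y) = iota K L F A x ⊗ₜ[F] iota K L F A y := by
  simp [jj]

lemma repr_jj {I : Type} (b : Module.Basis I K A) (z : (L ⊗[K] A) ⊗[L] (L ⊗[K] A)) (i : I × I) :
    ((Algebra.TensorProduct.basis F b).tensorProduct (Algebra.TensorProduct.basis F b)).repr
      (jj K L F A z) i =
      algebraMap L F (((Algebra.TensorProduct.basis L b).tensorProduct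
        (Algebra.TensorProduct.basis L b)).repr z i) := by
  obtain ⟨i, j⟩ := i
  induction z using TensorProduct.induction_on with
  | zero => simp
  | tmul x y =>
    rw [jj_tmul, Module.Basis.tensorProduct_repr_tmul_apply,
      Module.Basis.tensorProduct_repr_tmul_apply, repr_iota, repr_iota]
    simp
  | add x y hx hy => simp [hx, hy]

lemma jj_injective : Function.Injective (jj K L F A) := by
  intro x y h
  let b := Module.Free.chooseBasis K A
  apply ((Algebra.TensorProduct.basis L b).tensorProduct
    (Algebra.TensorProduct.basis L b)).repr.injective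
  ext i
  apply (algebraMap L F).injective
  rw [← repr_jj (F := F) b x i, ← repr_jj (F := F) b y i, h]

lemma jj_comul (z : L ⊗[K] A) :
    jj K L F A (Coalgebra.comul (R := L) z) = Coalgebra.comul (R := F) (iota K L F A z) := by
  induction z using TensorProduct.induction_on with
  | zero => simp
  | tmul l a =>
    rw [iota_tmul, TensorProduct.comul_tmul, TensorProduct.comul_tmul, CommSemiring.comul_apply,
      CommSemiring.comul_apply]
    generalize Coalgebra.comul (R := K) a = w
    induction w using TensorProduct.induction_on with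
    | zero => simp
    | tmul a1 a2 => simp
    | add x y hx hy => simp only [tmul_add, map_add, hx, hy]
  | add x y hx hy => simp only [map_add, hx, hy]

lemma iota_counit (z : L ⊗[K] A) :
    Coalgebra.counit (R := F) (iota K L F A z) = algebraMap L F (Coalgebra.counit (R := L) z) := by
  induction z using TensorProduct.induction_on with
  | zero => simp
  | tmul l a =>
    rw [iota_tmul, TensorProduct.counit_tmul, TensorProduct.counit_tmul]
    simp [Algebra.smul_def, ← IsScalarTower.algebraMap_apply]
  | add x y hx hy => simp only [map_add, hx, hy]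

end Base

section Gal

variable {K F A : Type} [Field K] [Field F] [Algebra K F]
  [CommRing A] [HopfAlgebra K A]

lemma repr_map {I : Type} (b : Module.Basis I K A) (γ : F ≃ₐ[K] F) (z : F ⊗[K] A) (i : I) :
    (Algebra.TensorProduct.basis F b).repr
      (Algebra.TensorProduct.map (γ : F →ₐ[K] F) (AlgHom.id K A) z) i =
      γ ((Algebra.TensorProduct.basis F b).repr z i) := by
  induction z using TensorProduct.induction_on with
  | zero => simp
  | tmul l a =>
    rw [Algebra.TensorProduct.map_tmul, Algebra.TensorProduct.basis_repr_tmul,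
      Algebra.TensorProduct.basis_repr_tmul]
    simp
  | add x y hx hy => simp [hx, hy]

end Gal

section Main

variable {K L F A : Type} [Field K] [Field L] [Field F] [Algebra K L] [Algebra K F] [Algebra L F]
  [IsScalarTower K L F] [CommRing A] [HopfAlgebra K A] {g : ℕ}

lemma exists_iota (H : Subgroup (F ≃ₐ[K] F))
    (hL : ∀ c : F, (∀ γ ∈ H, γ c = c) → ∃ l : L, algebraMap L F l = c) (w : F ⊗[K] A)
    (hw : ∀ γ ∈ H, Algebra.TensorProduct.map (γ : F →ₐ[K] F) (AlgHom.id K A) w = w) :
    ∃ z : L ⊗[K] A, iota K L F A z = w := by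
  let b := Module.Free.chooseBasis K A
  have hc : ∀ i, ∃ l : L, algebraMap L F l = (Algebra.TensorProduct.basis F b).repr w i := by
    intro i
    apply hL
    intro γ hγ
    rw [← repr_map b γ w i, hw γ hγ]
  choose c hc using hc
  refine ⟨∑ i ∈ ((Algebra.TensorProduct.basis F b).repr w).support, c i ⊗ₜ[K] b i, ?_⟩
  rw [map_sum]
  conv_rhs => rw [← (Algebra.TensorProduct.basis F b).linearCombination_repr w]
  rw [Finsupp.linearCombination_apply, Finsupp.sum]
  apply Finset.sum_congr rfl
  intro i _
  rw [iota_tmul, Algebra.TensorProduct.basis_apply, TensorProduct.smul_tmul', smul_eq_mul, mul_one,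
    hc i]

section Split

variable (Ψ : F ⊗[K] A ≃ₐc[F] MonoidAlgebra F (Multiplicative (Lat g)))

lemma chi_zero : chi Ψ (0 : Lat g) = 1 := by
  rw [chi, ofAdd_zero, ← MonoidAlgebra.one_def, map_one]

lemma chi_add (x y : Lat g) : chi Ψ (x + y) = chi Ψ x * chi Ψ y := by
  rw [chi, chi, chi, ← map_mul, MonoidAlgebra.single_mul_single, ofAdd_add, one_mul]

lemma symm_single (x : Lat g) (c : F) :
    Ψ.symm (MonoidAlgebra.single (Multiplicative.ofAdd x) c) = c • chi Ψ x := by
  rw [chi, ← map_smul, MonoidAlgebra.smul_single, smul_eq_mul, mul_one]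

lemma chi_counit (x : Lat g) : Coalgebra.counit (R := F) (chi Ψ x) = 1 := by
  rw [chi, CoalgHomClass.counit_comp_apply]
  simp

lemma chi_comul (x : Lat g) :
    Coalgebra.comul (R := F) (chi Ψ x) = chi Ψ x ⊗ₜ[F] chi Ψ x := by
  rw [chi, ← CoalgHomClass.map_comp_comul_apply]
  simp

lemma exists_chi' (act : (F ≃ₐ[K] F) →* AddMonoid.End (Lat g)) (h : IsAct Ψ act)
    (hL : ∀ c : F, (∀ γ ∈ act.ker, γ c = c) → ∃ l : L, algebraMap L F l = c) (x : Lat g) :
    ∃ z : L ⊗[K] A, iota K L F A z = chi Ψ x := by
  apply exists_iota act.ker hL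
  intro γ hγ
  rw [h γ x, MonoidHom.mem_ker.1 hγ]
  rfl

variable (hx : ∀ x, ∃ z : L ⊗[K] A, iota K L F A z = chi Ψ x)

/-- the characters, defined over the fixed field -/
noncomputable def chi' :
    Multiplicative (Lat g) →* L ⊗[K] A where
  toFun x := (hx x.toAdd).choose
  map_one' := by
    apply iota_injective (F := F)
    rw [(hx _).choose_spec, toAdd_one, chi_zero, map_one]
  map_mul' x y := by
    apply iota_injective (F := F)
    rw [map_mul (iota K L F A),
      (hx _).choose_spec, (hx _).choose_spec,
      (hx _).choose_spec, toAdd_mul, chi_add]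

lemma iota_chi' (x : Multiplicative (Lat g)) :
    iota K L F A (chi' Ψ hx x) = chi Ψ x.toAdd :=
  (hx x.toAdd).choose_spec

/-- the map of group algebras, as a map of algebras -/
noncomputable def Phi0 :
    MonoidAlgebra L (Multiplicative (Lat g)) →ₐ[L] L ⊗[K] A :=
  MonoidAlgebra.lift _ _ _ (chi' Ψ hx)

lemma Phi0_single (x : Multiplicative (Lat g)) :
    Phi0 Ψ hx (MonoidAlgebra.single x 1) = chi' Ψ hx x := by
  simp [Phi0]

lemma Phi0_counit :
    (Bialgebra.counitAlgHom L (L ⊗[K] A)).comp (Phi0 Ψ hx) =
    Bialgebra.counitAlgHom L (MonoidAlgebra L (Multiplicative (Lat g))) := by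
  apply MonoidAlgebra.algHom_ext
  · intro x
    apply (algebraMap L F).injective
    rw [AlgHom.comp_apply, Phi0_single, Bialgebra.counitAlgHom_apply, Bialgebra.counitAlgHom_apply,
      ← iota_counit, iota_chi', chi_counit, MonoidAlgebra.counit_single]
    simp
  · ext

lemma Phi0_comul :
    (Algebra.TensorProduct.map (Phi0 Ψ hx) (Phi0 Ψ hx)).comp
      (Bialgebra.comulAlgHom L (MonoidAlgebra L (Multiplicative (Lat g)))) =
    (Bialgebra.comulAlgHom L (L ⊗[K] A)).comp (Phi0 Ψ hx) := by
  apply MonoidAlgebra.algHom_ext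
  · intro x
    apply jj_injective (F := F)
    rw [AlgHom.comp_apply, AlgHom.comp_apply, Phi0_single, Bialgebra.comulAlgHom_apply,
      Bialgebra.comulAlgHom_apply, jj_comul, iota_chi', chi_comul, MonoidAlgebra.comul_single]
    simp [Phi0_single, iota_chi']
  · ext

/-- the map of group algebras -/
noncomputable def Phi :
    MonoidAlgebra L (Multiplicative (Lat g)) →ₐc[L] L ⊗[K] A :=
  BialgHom.ofAlgHom (Phi0 Ψ hx) (Phi0_counit Ψ hx) (Phi0_comul Ψ hx)

lemma iota_Phi0 (p : MonoidAlgebra L (Multiplicative (Lat g))) :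
    iota K L F A (Phi0 Ψ hx p) =
      Ψ.symm (MonoidAlgebra.mapRingHom _ (algebraMap L F) p) := by
  induction p using MonoidAlgebra.induction_linear with
  | zero => simp
  | add p q hp hq => rw [map_add, map_add, map_add, map_add, hp, hq]
  | single x c =>
    have h1 : (MonoidAlgebra.single x c : MonoidAlgebra L (Multiplicative (Lat g))) =
        c • MonoidAlgebra.single x 1 := by
      rw [MonoidAlgebra.smul_single, smul_eq_mul, mul_one]
    rw [MonoidAlgebra.mapRingHom_single, h1, map_smul, map_smul, Phi0_single, iota_chi',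
      ← ofAdd_toAdd x, symm_single, toAdd_ofAdd, algebraMap_smul]

lemma Phi0_injective : Function.Injective (Phi0 Ψ hx) := by
  intro p q hpq
  have h1 := congrArg (iota K L F A) hpq
  rw [iota_Phi0, iota_Phi0] at h1
  have h2 := Ψ.symm.injective h1
  ext x
  have h3 := congrArg (fun r => r.coeff x) h2
  simpa using h3

variable (act : (F ≃ₐ[K] F) →* AddMonoid.End (Lat g)) (h : IsAct Ψ act)
  (hL : ∀ c : F, (∀ γ ∈ act.ker, γ c = c) → ∃ l : L, algebraMap L F l = c)
  (hL' : ∀ γ ∈ act.ker, ∀ l : L, γ (algebraMap L F l) = algebraMap L F l)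

include h in
lemma map_symm (γ : F ≃ₐ[K] F) (hγ : γ ∈ act.ker)
    (q : MonoidAlgebra F (Multiplicative (Lat g))) :
    Algebra.TensorProduct.map (γ : F →ₐ[K] F) (AlgHom.id K A) (Ψ.symm q) =
      Ψ.symm (MonoidAlgebra.mapRingHom _ (γ : F →+* F) q) := by
  induction q using MonoidAlgebra.induction_linear with
  | zero => simp
  | add p q hp hq => rw [map_add, map_add, map_add, map_add, hp, hq]
  | single x c =>
    rw [MonoidAlgebra.mapRingHom_single, ← ofAdd_toAdd x, symm_single, symm_single,
      Algebra.smul_def, map_mul, h γ, MonoidHom.mem_ker.1 hγ, Algebra.smul_def]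
    simp

include h hL hL' in
lemma Phi0_surjective : Function.Surjective (Phi0 Ψ hx) := by
  intro z
  set q := Ψ (iota K L F A z) with hq
  have hz : Ψ.symm q = iota K L F A z := by
    rw [hq]; exact Ψ.symm_apply_apply _
  have hfix : ∀ γ ∈ act.ker, MonoidAlgebra.mapRingHom _ (γ : F →+* F) q = q := by
    intro γ hγ
    apply Ψ.symm.injective
    change Ψ.symm _ = Ψ.symm _
    rw [← map_symm Ψ act h γ hγ, hz]
    generalize z = z
    induction z using TensorProduct.induction_on with
    | zero => simp
    | tmul l a =>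
      rw [iota_tmul, Algebra.TensorProduct.map_tmul]
      simp only [AlgHom.coe_id, id_eq]
      exact congrArg (fun c => c ⊗ₜ[K] a) (hL' γ hγ l)
    | add x y hx hy => rw [map_add, map_add, hx, hy]
  have hc : ∀ x, ∃ l : L, algebraMap L F l = q.coeff x := by
    intro x
    apply hL
    intro γ hγ
    have h3 := congrArg (fun r => r.coeff x) (hfix γ hγ)
    simpa using h3
  choose c hc using hc
  refine ⟨∑ x ∈ q.coeff.support, MonoidAlgebra.single x (c x), ?_⟩
  apply iota_injective (F := F)
  rw [iota_Phi0, ← hz]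
  congr 1
  rw [map_sum]
  simp only [MonoidAlgebra.mapRingHom_single, hc]
  exact MonoidAlgebra.sum_coeff_single q

include h hL hL' in
theorem descent : Nonempty (L ⊗[K] A ≃ₐc[L] MonoidAlgebra L (Multiplicative (Lat g))) := by
  have hx := exists_chi' Ψ act h hL
  exact ⟨(BialgEquiv.ofBijective (Phi Ψ hx) ⟨Phi0_injective Ψ hx,
    Phi0_surjective Ψ hx act h hL hL'⟩).symm⟩

end Split

end Main

/-- Galois descent of a splitting to the fixed field of the kernel of the action -/
theorem spd : SPD := by
  intro K F A _ _ _ _ _ _ _ g Ψ act h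
  refine descent (L := IntermediateField.fixedField act.ker) Ψ act h ?_ ?_
  · intro c hc
    exact ⟨⟨c, (IntermediateField.mem_fixedField_iff act.ker c).2 hc⟩, rfl⟩
  · intro γ hγ l
    exact (IntermediateField.mem_fixedField_iff act.ker (l : F)).1 l.2 γ hγ

end Pool.Agent.Helper48.Nm
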